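import Pool.Agent.J6H49.SY.Defs

/-!
# The wirings of the gates of symmetric circuits are fixed by subgroups of small index
-/

set_option autoImplicit false

namespace Pool.Agent.J6H92.SY

open Pool.Agent.J6H49.SY
open Pool.Agent.Y600.Circ (Circuit view)

theorem eval_eq {B D L : Type} (C : Circuit B D L) (x : B → Bool) (g : C.Gate) :
    C.eval x g = C.fn g ((C.read g).map x) ((C.wires g).map fun e => (e.1, C.eval x e.2)) := by
  rw [Circuit.eval]
  congr 1
  exact Multiset.attach_map_val' (C.wires g) fun e => (e.1, C.eval x e.2)

theorem view_comp {X B D L : Type} (enc : X → B → Bool) (C : Circuit B D L) (g : C.Gate)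
    (f h : X → X) :
    view enc C g (f ∘ h) = ((view enc C g f).1.map fun F x => F (h x),
      (view enc C g f).2.map fun e => (e.1, fun x => e.2 (h x))) := by
  unfold view
  simp only [Option.map_map, Multiset.map_map, Function.comp_def]

variable {ι : Type} {m : ℕ} {D L : Type}

theorem eval_aut (C : Circuit (Clause ι m) D L) {γ : ι → A5} {π : Equiv.Perm C.Gate}
    (h : IsAut C γ π) (x : Clause ι m → Bool) (g : C.Gate) :
    C.eval x (π g) = C.eval (act γ x) g := by
  induction hr : C.rank g using Nat.strong_induction_on generalizing g with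
  | _ r ih =>
    rw [eval_eq, eval_eq, h.read, h.wires, h.fn, Option.map_map, Multiset.map_map]
    congr 1
    refine Multiset.map_congr rfl fun e he => ?_
    exact congrArg (Prod.mk e.1) (ih _ (hr ▸ C.rank_lt g e he) e.2 rfl)

theorem view_aut (C : Circuit (Clause ι m) D L) {γ : ι → A5} {π : Equiv.Perm C.Gate}
    (h : IsAut C γ π) (g : C.Gate) :
    view id C g (act γ) = view id C (π g) id := by
  unfold view
  rw [h.read, h.wires, Option.map_map, Multiset.map_map]
  refine Prod.ext rfl ?_
  refine Multiset.map_congr rfl fun e _ => ?_
  exact congrArg (Prod.mk e.1) (funext fun x => (eval_aut C h x e.2).symm)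

theorem act_comp (γ δ : ι → A5) :
    (act (γ * δ) : (Clause ι m → Bool) → _) = act δ ∘ act γ :=
  funext fun x => act_mul γ δ x

theorem act_id : (act (1 : ι → A5) : (Clause ι m → Bool) → _) = id :=
  funext fun x => act_one x

theorem act_inv (γ : ι → A5) : (act γ : (Clause ι m → Bool) → _) ∘ act γ⁻¹ = id := by
  rw [← act_comp, inv_mul_cancel, act_id]

/-- The elements of the group which fix the wiring of a gate. -/
def stab (C : Circuit (Clause ι m) D L) (g : C.Gate) : Subgroup (ι → A5) where
  carrier := {γ | view id C g (act γ) = view id C g id}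
  one_mem' := by
    show view id C g (act 1) = _
    rw [act_id]
  mul_mem' := by
    intro γ γ' h h'
    show view id C g (act (γ * γ')) = _
    have h' : view id C g (act γ') = view id C g id := h'
    have h : view id C g (act γ) = view id C g id := h
    rw [act_comp, view_comp, h', ← view_comp, Function.id_comp, h]
  inv_mem' := by
    intro γ h
    have h : view id C g (act γ) = view id C g id := h
    show view id C g (act γ⁻¹) = _
    have h2 : view id C g (id ∘ act γ⁻¹) = view id C g (act γ ∘ act γ⁻¹) := by
      rw [view_comp, view_comp, h]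
    rw [Function.id_comp, act_inv] at h2
    exact h2

theorem main : S_SYM := by
  intro ι _ _ m D L C hC
  refine ⟨fun γ x => ?_, fun g => ⟨stab C g, ?_, fun γ h => h⟩⟩
  · obtain ⟨π, hπ⟩ := hC γ
    have h := eval_aut C hπ x C.out
    rw [hπ.out] at h
    exact h.symm
  · let := C.finite
    have hsize : C.size = Nat.card C.Gate := Nat.card_eq_fintype_card.symm
    rw [hsize]
    choose π hπ using hC
    refine Nat.card_le_card_of_injective (fun q : (ι → A5) ⧸ stab C g => π q.out g) ?_
    intro q q' h
    have h : π q.out g = π q'.out g := h
    have h1 : view id C g (act q.out) = view id C g (act q'.out) := by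
      rw [view_aut C (hπ _), view_aut C (hπ _), h]
    have h2 : q.out⁻¹ * q'.out ∈ stab C g := by
      show view id C g (act (q.out⁻¹ * q'.out)) = view id C g id
      rw [act_comp, view_comp, ← h1, ← view_comp, act_inv]
    have h3 := QuotientGroup.eq.2 h2
    rwa [QuotientGroup.out_eq', QuotientGroup.out_eq'] at h3

end Pool.Agent.J6H92.SY
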